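import Mathlib
import Pool.Agent.Y734.BR.Fin

/-!
# Job LG: norms of local units
-/

set_option autoImplicit false

namespace Pool.Agent.Y734.I.LG

open NumberField IsDedekindDomain Pool.Agent.Y734.BR

variable {L : Type} [Field L] [NumberField L]

/-- the valuation and the absolute value -/
theorem mk_eq_toNNReal (v : HeightOneSpectrum (𝓞 L)) (x : L) : FinitePlace.mk v x =
    (WithZeroMulInt.toNNReal (HeightOneSpectrum.absNorm_ne_zero v) (v.valuation L x) : ℝ) :=
  FinitePlace.norm_embedding' v x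

theorem val_le_one {v : HeightOneSpectrum (𝓞 L)} {x : L} (h : FinitePlace.mk v x ≤ 1) :
    v.valuation L x ≤ 1 := by
  rw [mk_eq_toNNReal] at h
  exact (WithZeroMulInt.toNNReal_le_one_iff (HeightOneSpectrum.one_lt_absNorm_nnreal v)).1
    (by exact_mod_cast h)

theorem nat_le_one (v : HeightOneSpectrum (𝓞 L)) (m : ℕ) : FinitePlace.mk v (m : L) ≤ 1 := by
  have := FinitePlace.norm_le_one L v (m : 𝓞 L)
  rw [map_natCast] at this
  exact this

theorem int_le_one (v : HeightOneSpectrum (𝓞 L)) (m : ℤ) : FinitePlace.mk v (m : L) ≤ 1 := by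
  have := FinitePlace.norm_le_one L v (m : 𝓞 L)
  rw [map_intCast] at this
  exact this

theorem nat_lt_one {v : HeightOneSpectrum (𝓞 L)} {m : ℕ} (h : (m : 𝓞 L) ∈ v.asIdeal) :
    FinitePlace.mk v (m : L) < 1 := by
  have := (FinitePlace.norm_lt_one_iff_mem L v (m : 𝓞 L)).2 h
  rw [map_natCast] at this
  exact this

/-- a prime not above `p` contains a natural number prime to `p` -/
theorem exists_prime_to {p : ℕ} (hp : p.Prime) {v : HeightOneSpectrum (𝓞 L)} (hv : v ∉ Ab L p) :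
    ∃ a : ℕ, a ≠ 0 ∧ ¬ p ∣ a ∧ (a : 𝓞 L) ∈ v.asIdeal := by
  have h0 : Ideal.absNorm v.asIdeal ≠ 0 := by
    have := HeightOneSpectrum.one_lt_absNorm v
    omega
  obtain ⟨s, a, hpa, ha⟩ := Nat.exists_eq_pow_mul_and_not_dvd h0 p hp.ne_one
  refine ⟨a, fun h => hpa (h ▸ dvd_zero p), hpa, ?_⟩
  have h1 : ((Ideal.absNorm v.asIdeal : ℕ) : 𝓞 L) ∈ v.asIdeal := Ideal.absNorm_mem _
  rw [ha] at h1
  push_cast at h1
  rcases v.isPrime.mem_or_mem h1 with h2 | h2
  · exact absurd (v.isPrime.mem_of_pow_mem _ h2) hv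
  · exact h2

/-- a multiple prime to `p` of an element which is integral above `p` is integral -/
theorem exists_den {u : L} (hu : u ≠ 0) {p : ℕ} (hp : p.Prime)
    (h : ∀ v ∈ Ab L p, FinitePlace.mk v u ≤ 1) :
    ∃ d : ℕ, d ≠ 0 ∧ ¬ p ∣ d ∧ IsIntegral ℤ ((d : L) * u) := by
  classical
  have hfin : {v : HeightOneSpectrum (𝓞 L) | FinitePlace.mk v u ≠ 1}.Finite := by
    have h1 := FinitePlace.hasFiniteMulSupport hu
    have h2 : {v : HeightOneSpectrum (𝓞 L) | FinitePlace.mk v u ≠ 1} =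
        FinitePlace.mk ⁻¹' (Function.mulSupport fun w : FinitePlace L => w u) := rfl
    rw [h2]
    exact Set.Finite.preimage (fun v _ v' _ hvv => FinitePlace.mk_eq_iff.1 hvv) h1
  have hex : ∀ v : HeightOneSpectrum (𝓞 L), ∃ d : ℕ, d ≠ 0 ∧ ¬ p ∣ d ∧
      (v ∉ Ab L p → FinitePlace.mk v (d : L) * FinitePlace.mk v u ≤ 1) := by
    intro v
    by_cases hv : v ∈ Ab L p
    · exact ⟨1, one_ne_zero, fun h => hp.one_lt.ne' (Nat.dvd_one.1 h), fun h => absurd hv h⟩
    · obtain ⟨a, ha0, hpa, hav⟩ := exists_prime_to hp hv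
      have hu0 : 0 < FinitePlace.mk v u := FinitePlace.pos_iff.2 hu
      obtain ⟨k, hk⟩ := exists_pow_lt_of_lt_one (inv_pos.2 hu0) (nat_lt_one hav)
      refine ⟨a ^ k, pow_ne_zero _ ha0, fun h => hpa (hp.dvd_of_dvd_pow h), fun _ => ?_⟩
      rw [Nat.cast_pow, map_pow]
      exact ((mul_lt_mul_of_pos_right hk hu0).trans_eq (inv_mul_cancel₀ hu0.ne')).le
  choose d hd0 hdp hd using hex
  refine ⟨∏ v ∈ hfin.toFinset, d v, Finset.prod_ne_zero_iff.2 fun v _ => hd0 v, ?_, ?_⟩
  · rw [Prime.dvd_finsetProd_iff hp.prime]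
    rintro ⟨v, -, hv⟩
    exact hdp v hv
  · have h1 : ∀ v : HeightOneSpectrum (𝓞 L),
        FinitePlace.mk v (((∏ v ∈ hfin.toFinset, d v : ℕ) : L) * u) ≤ 1 := by
      intro v
      rw [map_mul]
      by_cases h2 : FinitePlace.mk v u ≤ 1
      · exact mul_le_one₀ (nat_le_one v _) (apply_nonneg _ _) h2
      · have h3 : v ∉ Ab L p := fun h4 => h2 (h v h4)
        have h4 : v ∈ hfin.toFinset := by
          rw [Set.Finite.mem_toFinset]
          exact fun h5 => h2 h5.le
        rw [← Finset.mul_prod_erase _ _ h4, Nat.cast_mul, map_mul]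
        calc FinitePlace.mk v (d v : L) *
              FinitePlace.mk v ((∏ x ∈ hfin.toFinset.erase v, d x : ℕ) : L) * FinitePlace.mk v u
            ≤ FinitePlace.mk v (d v : L) * 1 * FinitePlace.mk v u := by
              gcongr
              exact nat_le_one v _
          _ ≤ 1 := by
              rw [mul_one]
              exact hd v h3
    obtain ⟨y, hy⟩ := HeightOneSpectrum.mem_integers_of_valuation_le_one L
      (((∏ v ∈ hfin.toFinset, d v : ℕ) : L) * u) (fun v => val_le_one (h1 v))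
    rw [← hy]
    exact y.2

/-- the norm of an element which is integral above `p` -/
theorem padic_nonneg {u : L} (hu : u ≠ 0) {p : ℕ} (hp : p.Prime)
    (h : ∀ v ∈ Ab L p, FinitePlace.mk v u ≤ 1) : 0 ≤ padicValRat p (Algebra.norm ℚ u) := by
  have : Fact p.Prime := ⟨hp⟩
  obtain ⟨d, hd0, hpd, hint⟩ := exists_den hu hp h
  have h1 : IsIntegral ℤ (Algebra.norm ℚ ((d : L) * u)) := Algebra.isIntegral_norm ℚ hint
  obtain ⟨z, hz⟩ := IsIntegrallyClosed.isIntegral_iff.1 h1
  have h2 : Algebra.norm ℚ ((d : L) * u) = (d : ℚ) ^ Module.finrank ℚ L * Algebra.norm ℚ u := by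
    rw [map_mul]
    congr 1
    have h3 := Algebra.norm_algebraMap (R := ℚ) (S := L) (d : ℚ)
    rwa [map_natCast] at h3
  have hdQ : (d : ℚ) ≠ 0 := by exact_mod_cast hd0
  have hn0 : Algebra.norm ℚ u ≠ 0 := Algebra.norm_ne_zero_iff.2 hu
  have h3 : padicValRat p (Algebra.norm ℚ ((d : L) * u)) = padicValRat p (Algebra.norm ℚ u) := by
    rw [h2, padicValRat.mul (pow_ne_zero _ hdQ) hn0, padicValRat.pow]
    have h4 : padicValRat p (d : ℚ) = 0 := by
      rw [padicValRat.of_nat, padicValNat.eq_zero_of_not_dvd hpd]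
      rfl
    rw [h4, mul_zero, zero_add]
  rw [← h3, ← hz]
  have h4 : padicValRat p ((algebraMap ℤ ℚ) z) = padicValInt p z := by
    rw [eq_intCast, padicValRat.of_int]
  rw [h4]
  exact Int.natCast_nonneg _

/-- **the norm of a unit above `p`** -/
theorem padic_unit {u : L} (hu : u ≠ 0) {p : ℕ} (hp : p.Prime)
    (h : ∀ v ∈ Ab L p, FinitePlace.mk v u = 1) : padicValRat p (Algebra.norm ℚ u) = 0 := by
  have : Fact p.Prime := ⟨hp⟩
  have h1 := padic_nonneg hu hp fun v hv => (h v hv).le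
  have h2 := padic_nonneg (inv_ne_zero hu) hp fun v hv => by
    rw [map_inv₀, h v hv, inv_one]
  have h3 : Algebra.norm ℚ u⁻¹ = (Algebra.norm ℚ u)⁻¹ := by
    apply eq_inv_of_mul_eq_one_right
    rw [← map_mul, mul_inv_cancel₀ hu, map_one]
  rw [h3, padicValRat.inv] at h2
  omega

/-- the values larger than one are at least `p` -/
theorem le_of_one_lt {p : ℕ} (hp : p.Prime) {v : HeightOneSpectrum (𝓞 L)} (hv : v ∈ Ab L p) {z : L}
    (hz : 1 < FinitePlace.mk v z) : (p : ℝ) ≤ FinitePlace.mk v z := by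
  have hN1 := HeightOneSpectrum.one_lt_absNorm_nnreal v
  -- the norm of the prime
  have hpN : p ≤ Ideal.absNorm v.asIdeal := by
    have h1 : Ideal.absNorm v.asIdeal ∣ Ideal.absNorm (Ideal.span {(p : 𝓞 L)}) := by
      apply Ideal.absNorm_dvd_absNorm_of_le
      rw [Ideal.span_singleton_le_iff_mem]
      exact hv
    rw [Ideal.absNorm_span_natCast] at h1
    obtain ⟨k, -, hk⟩ := (Nat.dvd_prime_pow hp).1 h1
    have h2 : k ≠ 0 := by
      rintro rfl
      have := HeightOneSpectrum.one_lt_absNorm v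
      rw [hk, pow_zero] at this
      exact lt_irrefl _ this
    rw [hk]
    calc p = p ^ 1 := (pow_one p).symm
      _ ≤ p ^ k := Nat.pow_le_pow_right hp.pos (by omega)
  have hz0 : v.valuation L z ≠ 0 := by
    intro h0
    rw [mk_eq_toNNReal, h0, map_zero] at hz
    norm_num at hz
  rw [mk_eq_toNNReal, WithZeroMulInt.toNNReal_neg_apply _ hz0] at hz ⊢
  push_cast at hz ⊢
  have hN1' : (1 : ℝ) < Ideal.absNorm v.asIdeal := by exact_mod_cast hN1
  have h3 : 0 < Multiplicative.toAdd (WithZero.unzero hz0) := by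
    by_contra hcon
    push Not at hcon
    have h4 := zpow_le_one_of_nonpos₀ hN1'.le hcon
    exact absurd hz (not_lt.2 h4)
  calc (p : ℝ) ≤ (Ideal.absNorm v.asIdeal : ℝ) := by exact_mod_cast hpN
    _ = (Ideal.absNorm v.asIdeal : ℝ) ^ (1 : ℤ) := (zpow_one _).symm
    _ ≤ _ := zpow_le_zpow_right₀ hN1'.le h3

end Pool.Agent.Y734.I.LG
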