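import Mathlib
import Pool.Agent.Y734.I.Stms
import Pool.Agent.Y734.I.LG.Unit

/-!
# Job LG: the divisors of the norms of the values of the linear forms
-/

set_option autoImplicit false

namespace Pool.Agent.Y734.I.LG

open NumberField IsDedekindDomain MvPolynomial Pool.Agent.Y734 Pool.Agent.Y734.BR Pool.Agent.Y734.I

variable {L : Type} [Field L] [NumberField L]

/-- the value of a linear form -/
theorem aeval_lin {N : ℕ} (l : Fin (N + 1) → ℚ) (x : Fin (N + 1) → L) :
    aeval x (lin (n := N) l) = ∑ j, algebraMap ℚ L (l j) * x j := by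
  rw [lin, map_sum]
  refine Finset.sum_congr rfl fun j _ => ?_
  rw [map_mul, aeval_C, aeval_X]

/-- the nonarchimedean bound for sums -/
theorem sum_le (v : FinitePlace L) {ι : Type} (s : Finset ι) (f : ι → L) {M : ℝ} (hM : 0 ≤ M)
    (h : ∀ i ∈ s, v (f i) ≤ M) : v (∑ i ∈ s, f i) ≤ M := by
  classical
  induction s using Finset.induction_on with
  | empty =>
    rw [Finset.sum_empty, map_zero]
    exact hM
  | insert i s hi ih =>
    rw [Finset.sum_insert hi]
    exact (FinitePlace.add_le v _ _).trans (max_le (h i (Finset.mem_insert_self _ _))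
      (ih fun j hj => h j (Finset.mem_insert_of_mem hj)))

/-- a common denominator -/
theorem exists_denom {N q : ℕ} (H : Fin q → Fin (N + 1) → ℚ) :
    ∃ m : ℕ, m ≠ 0 ∧ ∀ i j, ∃ z : ℤ, (m : ℚ) * H i j = z := by
  refine ⟨∏ i, ∏ j, (H i j).den, ?_, fun i j => ?_⟩
  · exact Finset.prod_ne_zero_iff.2 fun i _ => Finset.prod_ne_zero_iff.2 fun j _ => (H i j).den_nz
  · obtain ⟨k, hk⟩ : (H i j).den ∣ ∏ i, ∏ j, (H i j).den :=
      (Finset.dvd_prod_of_mem (fun j => (H i j).den) (Finset.mem_univ j)).trans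
        (Finset.dvd_prod_of_mem (fun i => ∏ j, (H i j).den) (Finset.mem_univ i))
    refine ⟨k * (H i j).num, ?_⟩
    rw [hk]
    push_cast
    have h1 := Rat.mul_den_eq_num (H i j)
    rw [← h1]
    ring

theorem exists_fin {ι : Type} [Fintype ι] (u : ι → L) :
    ∃ E : Finset (HeightOneSpectrum (𝓞 L)), ∀ v ∉ E, ∀ i, u i ≠ 0 → FinitePlace.mk v (u i) = 1 := by
  classical
  have h1 : ∀ i, ∃ E : Finset (HeightOneSpectrum (𝓞 L)), ∀ v ∉ E, u i ≠ 0 →
      FinitePlace.mk v (u i) = 1 := by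
    intro i
    by_cases hu : u i = 0
    · exact ⟨∅, fun v _ h => absurd hu h⟩
    · have h1 := FinitePlace.hasFiniteMulSupport hu
      have h2 : {v : HeightOneSpectrum (𝓞 L) | FinitePlace.mk v (u i) ≠ 1} =
          FinitePlace.mk ⁻¹' (Function.mulSupport fun w : FinitePlace L => w (u i)) := rfl
      have h3 : {v : HeightOneSpectrum (𝓞 L) | FinitePlace.mk v (u i) ≠ 1}.Finite := by
        rw [h2]
        exact Set.Finite.preimage (fun v _ v' _ hvv => FinitePlace.mk_eq_iff.1 hvv) h1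
      refine ⟨h3.toFinset, fun v hv _ => ?_⟩
      rw [Set.Finite.mem_toFinset] at hv
      by_contra h4
      exact hv h4
  choose E hE using h1
  refine ⟨Finset.univ.biUnion E, fun v hv i => hE i v ?_⟩
  intro h
  exact hv (Finset.mem_biUnion.2 ⟨i, Finset.mem_univ i, h⟩)

/-- the product formula -/
theorem log_formula {y : L} (hy : y ≠ 0) (E : Finset (HeightOneSpectrum (𝓞 L)))
    (hE : ∀ v ∉ E, FinitePlace.mk v y = 1) :
    ∑ w : InfinitePlace L, (w.mult : ℝ) * Real.log (w y) +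
      ∑ v ∈ E, Real.log (FinitePlace.mk v y) = 0 := by
  have h1 := prod_abs_eq_one hy
  rw [finprod_places (fun w => w y)] at h1
  have h2 : ∏ᶠ v : HeightOneSpectrum (𝓞 L), FinitePlace.mk v y =
      ∏ v ∈ E, FinitePlace.mk v y := by
    refine finprod_eq_prod_of_mulSupport_subset _ ?_
    intro v hv
    by_contra h4
    exact hv (hE v h4)
  rw [h2] at h1
  have h3 : ∀ w : InfinitePlace L, w y ^ w.mult ≠ 0 := fun w =>
    pow_ne_zero _ ((map_ne_zero w).2 hy)
  have h4 : ∀ v : HeightOneSpectrum (𝓞 L), FinitePlace.mk v y ≠ 0 := fun v =>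
    (FinitePlace.pos_iff.2 hy).ne'
  have h5 := congrArg Real.log h1
  rw [Real.log_mul (Finset.prod_ne_zero_iff.2 fun w _ => h3 w)
    (Finset.prod_ne_zero_iff.2 fun v _ => h4 v), Real.log_one,
    Real.log_prod (fun w _ => h3 w), Real.log_prod (fun v _ => h4 v)] at h5
  rw [← h5]
  congr 1
  exact Finset.sum_congr rfl fun w _ => (Real.log_pow _ _).symm

theorem sup_pos' {ι : Type} [Finite ι] (a : L → ℝ) (ha : ∀ y, y ≠ 0 → 0 < a y) {x : ι → L}
    (hx : x ≠ 0) : 0 < ⨆ j, a (x j) := by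
  obtain ⟨i, hi⟩ := Function.ne_iff.1 hx
  exact lt_of_lt_of_le (ha _ hi) (Finite.le_ciSup_of_le (f := fun j => a (x j)) i le_rfl)

theorem inf_pos (w : InfinitePlace L) (y : L) (hy : y ≠ 0) : 0 < w y :=
  lt_of_le_of_ne (apply_nonneg w y) (Ne.symm ((map_ne_zero w).2 hy))

/-- the height -/
theorem logHeight_eq' {N : ℕ} {x : Fin (N + 1) → L} (hx : x ≠ 0)
    (E : Finset (HeightOneSpectrum (𝓞 L))) (hE : ∀ v ∉ E, ⨆ j, FinitePlace.mk v (x j) = 1) :
    Height.logHeight x = ∑ w : InfinitePlace L, (w.mult : ℝ) * Real.log (⨆ j, w (x j)) +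
      ∑ v ∈ E, Real.log (⨆ j, FinitePlace.mk v (x j)) := by
  rw [Height.logHeight_eq_log_mulHeight, NumberField.mulHeight_eq hx,
    finprod_places (fun v => ⨆ j, v (x j))]
  have h2 : ∏ᶠ v : HeightOneSpectrum (𝓞 L), (⨆ j, FinitePlace.mk v (x j)) =
      ∏ v ∈ E, ⨆ j, FinitePlace.mk v (x j) := by
    refine finprod_eq_prod_of_mulSupport_subset _ ?_
    intro v hv
    by_contra h4
    exact hv (hE v h4)
  rw [h2]
  have h3 : ∀ w : InfinitePlace L, (⨆ j, w (x j)) ^ w.mult ≠ 0 := fun w =>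
    pow_ne_zero _ (sup_pos' (fun y => w y) (inf_pos w) hx).ne'
  have h4 : ∀ v : HeightOneSpectrum (𝓞 L), (⨆ j, FinitePlace.mk v (x j)) ≠ 0 := fun v =>
    (sup_pos' (fun y => FinitePlace.mk v y) (fun y hy => FinitePlace.pos_iff.2 hy) hx).ne'
  rw [Real.log_mul (Finset.prod_ne_zero_iff.2 fun w _ => h3 w)
    (Finset.prod_ne_zero_iff.2 fun v _ => h4 v),
    Real.log_prod (fun w _ => h3 w), Real.log_prod (fun v _ => h4 v)]
  congr 1
  exact Finset.sum_congr rfl fun w _ => Real.log_pow _ _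

/-- the Weil function -/
theorem weil_eq {N : ℕ} (a : L → ℝ) (ha : ∀ y, y ≠ 0 → 0 < a y)
    (F : MvPolynomial (Fin (N + 1)) ℚ) (d : ℕ) {x : Fin (N + 1) → L} (hx : x ≠ 0)
    (hF : aeval x F ≠ 0) :
    weil a F d x = d * Real.log (⨆ j, a (x j)) - Real.log (a (aeval x F)) := by
  rw [weil, Real.log_div (pow_ne_zero _ (sup_pos' a ha hx).ne') (ha _ hF).ne', Real.log_pow]

theorem lg : LgStmt := by
  classical
  intro N q H S hS r C
  obtain ⟨m, hm0, hm⟩ := exists_denom H
  obtain ⟨K, hK⟩ : ∃ K : ℝ, K = |C| * r + q * r * Real.log m := ⟨_, rfl⟩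
  have hm1 : (1 : ℝ) ≤ m := by exact_mod_cast Nat.one_le_iff_ne_zero.2 hm0
  have hlogm : 0 ≤ Real.log m := Real.log_nonneg hm1
  have hK0 : 0 ≤ K := by rw [hK]; positivity
  refine ⟨S ∪ (Finset.range (⌈Real.exp K⌉₊ + 1)).filter Nat.Prime, ?_, ?_⟩
  · intro p hp
    rcases Finset.mem_union.1 hp with h | h
    · exact hS p h
    · exact (Finset.mem_filter.1 h).2
  intro L _ _ hr x hx hy hineq i₁ i₂ p hp hpS
  -- the prime `p`
  have hpS1 : p ∉ S := fun h => hpS (Finset.mem_union_left _ h)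
  have hpK : K < Real.log p := by
    have h1 : ¬ p < ⌈Real.exp K⌉₊ + 1 := fun h =>
      hpS (Finset.mem_union_right _ (Finset.mem_filter.2 ⟨Finset.mem_range.2 h, hp⟩))
    have h2 : ⌈Real.exp K⌉₊ < p := by omega
    have h3 : Real.exp K < p := lt_of_le_of_lt (Nat.le_ceil _) (by exact_mod_cast h2)
    rwa [Real.lt_log_iff_exp_lt (by exact_mod_cast hp.pos)]
  -- the values
  obtain ⟨z, hz⟩ : ∃ z : Fin q → L, z = fun i => aeval x (lin (n := N) (H i)) := ⟨_, rfl⟩
  have hyz : aeval x (∏ i, lin (n := N) (H i)) = ∏ i, z i := by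
    rw [map_prod, hz]
  have hz0 : ∀ i, z i ≠ 0 := by
    intro i hi
    apply hy
    rw [hyz]
    exact Finset.prod_eq_zero (Finset.mem_univ i) hi
  have hmL : (m : L) ≠ 0 := by exact_mod_cast hm0
  -- the finite set of places
  obtain ⟨E, hE⟩ := exists_fin (fun a : Unit ⊕ (Fin q ⊕ Fin (N + 1)) =>
    Sum.elim (fun _ => (m : L)) (Sum.elim z x) a)
  have hEm : ∀ v ∉ E, FinitePlace.mk v (m : L) = 1 := fun v hv => hE v hv (Sum.inl ()) hmL
  have hEz : ∀ v ∉ E, ∀ i, FinitePlace.mk v (z i) = 1 := fun v hv i =>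
    hE v hv (Sum.inr (Sum.inl i)) (hz0 i)
  have hEx : ∀ v ∉ E, ∀ j, x j ≠ 0 → FinitePlace.mk v (x j) = 1 := fun v hv j hj =>
    hE v hv (Sum.inr (Sum.inr j)) hj
  obtain ⟨M, hM⟩ : ∃ M : HeightOneSpectrum (𝓞 L) → ℝ,
      M = fun v => ⨆ j, FinitePlace.mk v (x j) := ⟨_, rfl⟩
  have hMv : ∀ v, M v = ⨆ j, FinitePlace.mk v (x j) := fun v => by rw [hM]
  have hfp : ∀ (v : HeightOneSpectrum (𝓞 L)) (y : L), y ≠ 0 → 0 < FinitePlace.mk v y :=
    fun v y hy => FinitePlace.pos_iff.2 hy
  have hM0 : ∀ v, 0 < M v := fun v => by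
    rw [hMv]
    exact sup_pos' (fun y => FinitePlace.mk v y) (hfp v) hx
  have hMle : ∀ v j, FinitePlace.mk v (x j) ≤ M v := fun v j => by
    rw [hMv]
    exact Finite.le_ciSup_of_le (f := fun j => FinitePlace.mk v (x j)) j le_rfl
  have hMex : ∀ v, ∃ j, FinitePlace.mk v (x j) = M v := fun v => by
    rw [hMv]
    exact exists_eq_ciSup_of_finite (f := fun j => FinitePlace.mk v (x j))
  have hEM : ∀ v ∉ E, M v = 1 := by
    intro v hv
    apply le_antisymm
    · obtain ⟨j, hj⟩ := hMex v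
      rw [← hj]
      by_cases hxj : x j = 0
      · rw [hxj, map_zero]
        exact zero_le_one
      · exact (hEx v hv j hxj).le
    · obtain ⟨j, hj⟩ := Function.ne_iff.1 hx
      rw [← hEx v hv j hj]
      exact hMle v j
  have hEy : ∀ v ∉ E, FinitePlace.mk v (∏ i, z i) = 1 := by
    intro v hv
    rw [map_prod]
    exact Finset.prod_eq_one fun i _ => hEz v hv i
  rw [hyz] at hy
  -- the main inequality
  have hn : (0 : ℝ) < Module.finrank ℚ L := by exact_mod_cast Module.finrank_pos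
  have hnr : (Module.finrank ℚ L : ℝ) ≤ r := by exact_mod_cast hr
  obtain ⟨ES, hES⟩ : ∃ ES : Finset (HeightOneSpectrum (𝓞 L)),
      ES = E.filter (fun v => ∃ p ∈ S, (p : 𝓞 L) ∈ v.asIdeal) := ⟨_, rfl⟩
  have hlogy : ∀ v : HeightOneSpectrum (𝓞 L), Real.log (FinitePlace.mk v (∏ i, z i)) =
      ∑ i, Real.log (FinitePlace.mk v (z i)) := fun v => by
    rw [map_prod, Real.log_prod (fun i _ => (hfp v _ (hz0 i)).ne')]
  have hmain : ∑ v ∈ E \ ES, (q * Real.log (M v) - Real.log (FinitePlace.mk v (∏ i, z i))) ≤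
      C * Module.finrank ℚ L := by
    have h1 := log_formula hy E hEy
    have h2 := logHeight_eq' hx E (fun v hv => by rw [← hMv]; exact hEM v hv)
    have h3 : ∀ w : InfinitePlace L, weil w (∏ i, lin (n := N) (H i)) q x =
        q * Real.log (⨆ j, w (x j)) - Real.log (w (∏ i, z i)) := by
      intro w
      rw [← hyz] at hy ⊢
      exact weil_eq (fun y => w y) (inf_pos w) _ q hx hy
    have h4 : ∀ v : HeightOneSpectrum (𝓞 L),
        weil (FinitePlace.mk v) (∏ i, lin (n := N) (H i)) q x =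
        q * Real.log (M v) - Real.log (FinitePlace.mk v (∏ i, z i)) := by
      intro v
      rw [← hyz] at hy ⊢
      rw [hMv]
      exact weil_eq (fun y => FinitePlace.mk v y) (hfp v) _ q hx hy
    have h5 : (∑ᶠ v ∈ {v : HeightOneSpectrum (𝓞 L) | ∃ p ∈ S, (p : 𝓞 L) ∈ v.asIdeal},
        weil (FinitePlace.mk v) (∏ i, lin (n := N) (H i)) q x) =
        ∑ v ∈ ES, (q * Real.log (M v) - Real.log (FinitePlace.mk v (∏ i, z i))) := by
      rw [finsum_mem_eq_sum_of_inter_support_eq (t := ES)]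
      · exact Finset.sum_congr rfl fun v _ => h4 v
      · ext v
        simp only [Set.mem_inter_iff, Set.mem_ofPred_eq, Function.mem_support, hES,
          Finset.coe_filter]
        constructor
        · rintro ⟨h6, h7⟩
          refine ⟨⟨?_, h6⟩, h7⟩
          by_contra h8
          apply h7
          rw [h4, hEM v h8, hEy v h8, Real.log_one, mul_zero, sub_zero]
        · rintro ⟨⟨-, h6⟩, h7⟩
          exact ⟨h6, h7⟩
    rw [height, proximity, h5] at hineq
    have h6 : ∑ w : InfinitePlace L, (w.mult : ℝ) * weil w (∏ i, lin (n := N) (H i)) q x =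
        q * (∑ w : InfinitePlace L, (w.mult : ℝ) * Real.log (⨆ j, w (x j))) -
          ∑ w : InfinitePlace L, (w.mult : ℝ) * Real.log (w (∏ i, z i)) := by
      rw [Finset.mul_sum, ← Finset.sum_sub_distrib]
      refine Finset.sum_congr rfl fun w _ => ?_
      rw [h3]
      ring
    rw [h6] at hineq
    have h7 : (q : ℝ) * Height.logHeight x ≤
        (q * (∑ w : InfinitePlace L, (w.mult : ℝ) * Real.log (⨆ j, w (x j))) -
          ∑ w : InfinitePlace L, (w.mult : ℝ) * Real.log (w (∏ i, z i))) +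
        ∑ v ∈ ES, (q * Real.log (M v) - Real.log (FinitePlace.mk v (∏ i, z i))) +
        C * Module.finrank ℚ L := by
      have h8 := mul_le_mul_of_nonneg_right hineq hn.le
      rw [add_mul, div_mul_cancel₀ _ hn.ne', mul_assoc, div_mul_cancel₀ _ hn.ne'] at h8
      exact h8
    have h8 : ∑ v ∈ E \ ES, (q * Real.log (M v) - Real.log (FinitePlace.mk v (∏ i, z i))) +
        ∑ v ∈ ES, (q * Real.log (M v) - Real.log (FinitePlace.mk v (∏ i, z i))) =
        q * (∑ v ∈ E, Real.log (M v)) - ∑ v ∈ E, Real.log (FinitePlace.mk v (∏ i, z i)) := by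
      rw [Finset.sum_sdiff (by rw [hES]; exact Finset.filter_subset _ _), Finset.mul_sum,
        ← Finset.sum_sub_distrib]
    simp only [← hMv] at h2
    rw [h2] at h7
    linarith
  -- the terms
  obtain ⟨τ, hτ⟩ : ∃ τ : HeightOneSpectrum (𝓞 L) → Fin q → ℝ, τ = fun v i =>
    Real.log (M v) - Real.log (FinitePlace.mk v (m : L)) -
      Real.log (FinitePlace.mk v (z i)) := ⟨_, rfl⟩
  have hτv : ∀ v i, τ v i = Real.log (M v) - Real.log (FinitePlace.mk v (m : L)) -
      Real.log (FinitePlace.mk v (z i)) := fun v i => by rw [hτ]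
  have hle : ∀ v i, FinitePlace.mk v (m : L) * FinitePlace.mk v (z i) ≤ M v := by
    intro v i
    rw [← map_mul]
    have h1 : (m : L) * z i = ∑ j, algebraMap ℚ L ((m : ℚ) * H i j) * x j := by
      rw [hz]
      dsimp only
      rw [aeval_lin, Finset.mul_sum]
      refine Finset.sum_congr rfl fun j _ => ?_
      rw [map_mul, map_natCast, mul_assoc]
    rw [h1]
    refine sum_le (FinitePlace.mk v) _ _ (hM0 v).le fun j _ => ?_
    obtain ⟨a, ha⟩ := hm i j
    rw [ha, map_intCast, map_mul]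
    calc FinitePlace.mk v (a : L) * FinitePlace.mk v (x j) ≤ 1 * FinitePlace.mk v (x j) :=
          mul_le_mul_of_nonneg_right (int_le_one v a) (apply_nonneg _ _)
      _ ≤ M v := by
          rw [one_mul]
          exact hMle v j
  have hτ0 : ∀ v i, 0 ≤ τ v i := by
    intro v i
    have h1 := Real.log_le_log (mul_pos (hfp v _ hmL) (hfp v _ (hz0 i))) (hle v i)
    rw [Real.log_mul (hfp v _ hmL).ne' (hfp v _ (hz0 i)).ne'] at h1
    rw [hτv]
    linarith
  have hlm : ∀ v : HeightOneSpectrum (𝓞 L), Real.log (FinitePlace.mk v (m : L)) ≤ 0 := fun v =>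
    Real.log_nonpos (apply_nonneg _ _) (nat_le_one v m)
  have hsum : ∑ v ∈ E \ ES, ∑ i, τ v i ≤ K := by
    have h1 : ∀ v, ∑ i, τ v i = (q * Real.log (M v) - Real.log (FinitePlace.mk v (∏ i, z i))) +
        q * (-Real.log (FinitePlace.mk v (m : L))) := by
      intro v
      rw [hlogy]
      simp only [hτv, Finset.sum_sub_distrib, Finset.sum_const, Finset.card_univ,
        Fintype.card_fin, nsmul_eq_mul]
      ring
    rw [Finset.sum_congr rfl fun v _ => h1 v, Finset.sum_add_distrib, ← Finset.mul_sum]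
    have h2 : ∑ v ∈ E \ ES, -Real.log (FinitePlace.mk v (m : L)) ≤
        ∑ v ∈ E, -Real.log (FinitePlace.mk v (m : L)) :=
      Finset.sum_le_sum_of_subset_of_nonneg Finset.sdiff_subset
        fun v _ _ => neg_nonneg.2 (hlm v)
    have h3 : ∑ v ∈ E, -Real.log (FinitePlace.mk v (m : L)) =
        Module.finrank ℚ L * Real.log m := by
      have h4 := log_formula hmL E hEm
      have h5 : ∑ w : InfinitePlace L, (w.mult : ℝ) * Real.log (w (m : L)) =
          Module.finrank ℚ L * Real.log m := by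
        have h6 : ∀ w : InfinitePlace L, w (m : L) = m := fun w => by simp
        simp only [h6]
        rw [← Finset.sum_mul, ← InfinitePlace.sum_mult_eq]
        push_cast
        rfl
      rw [Finset.sum_neg_distrib]
      linarith
    rw [h3] at h2
    have h4 : (q : ℝ) * ∑ v ∈ E \ ES, -Real.log (FinitePlace.mk v (m : L)) ≤
        q * (r * Real.log m) :=
      mul_le_mul_of_nonneg_left (h2.trans (mul_le_mul_of_nonneg_right hnr hlogm))
        (Nat.cast_nonneg _)
    have h5 : C * Module.finrank ℚ L ≤ |C| * r :=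
      (mul_le_mul_of_nonneg_right (le_abs_self C) hn.le).trans
        (mul_le_mul_of_nonneg_left hnr (abs_nonneg C))
    rw [hK]
    linarith
  have hτK : ∀ v ∈ Ab L p, ∀ i, τ v i ≤ K := by
    intro v hv i
    by_cases hvE : v ∈ E
    · have hvS : v ∉ ES := by
        rw [hES, Finset.mem_filter]
        rintro ⟨-, p', hp', hvp'⟩
        exact hpS1 ((ab_disj hp (hS p' hp') hv hvp') ▸ hp')
      calc τ v i ≤ ∑ i, τ v i :=
            Finset.single_le_sum (f := fun i => τ v i) (fun i _ => hτ0 v i) (Finset.mem_univ i)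
        _ ≤ ∑ v ∈ E \ ES, ∑ i, τ v i :=
            Finset.single_le_sum (f := fun v => ∑ i, τ v i)
              (fun v _ => Finset.sum_nonneg fun i _ => hτ0 v i)
              (Finset.mem_sdiff.2 ⟨hvE, hvS⟩)
        _ ≤ K := hsum
    · rw [hτv, hEM v hvE, hEm v hvE, hEz v hvE i, Real.log_one, sub_zero, sub_zero]
      exact hK0
  -- all terms above `p` are zero
  have hval : ∀ v ∈ Ab L p, ∀ i, FinitePlace.mk v (m : L) * FinitePlace.mk v (z i) = M v := by
    intro v hv i
    by_contra hne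
    have hlt := lt_of_le_of_ne (hle v i) hne
    obtain ⟨j, hj⟩ := hMex v
    have hpos : 0 < FinitePlace.mk v (m : L) * FinitePlace.mk v (z i) :=
      mul_pos (hfp v _ hmL) (hfp v _ (hz0 i))
    have h1 : FinitePlace.mk v (x j / ((m : L) * z i)) =
        M v / (FinitePlace.mk v (m : L) * FinitePlace.mk v (z i)) := by
      rw [map_div₀, map_mul, hj]
    have h2 : 1 < FinitePlace.mk v (x j / ((m : L) * z i)) := by
      rw [h1, one_lt_div hpos]
      exact hlt
    have h3 := le_of_one_lt hp hv h2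
    have h4 : Real.log p ≤ τ v i := by
      have h5 : τ v i = Real.log (M v / (FinitePlace.mk v (m : L) * FinitePlace.mk v (z i))) := by
        rw [hτv, Real.log_div (hM0 v).ne' hpos.ne',
          Real.log_mul (hfp v _ hmL).ne' (hfp v _ (hz0 i)).ne']
        ring
      rw [h5, ← h1]
      exact Real.log_le_log (by exact_mod_cast hp.pos) h3
    exact absurd (h4.trans (hτK v hv i)) (not_le.2 hpK)
  have hunit : ∀ v ∈ Ab L p, FinitePlace.mk v (z i₁ / z i₂) = 1 := by
    intro v hv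
    have h1 := hval v hv i₁
    rw [← hval v hv i₂] at h1
    have h2 := mul_left_cancel₀ (hfp v _ hmL).ne' h1
    rw [map_div₀, h2, div_self (hfp v _ (hz0 i₂)).ne']
  have : Fact p.Prime := ⟨hp⟩
  have h1 := padic_unit (div_ne_zero (hz0 i₁) (hz0 i₂)) hp hunit
  have h2 : Algebra.norm ℚ (z i₁) = Algebra.norm ℚ (z i₁ / z i₂) * Algebra.norm ℚ (z i₂) := by
    rw [← map_mul, div_mul_cancel₀ _ (hz0 i₂)]
  have h3 : padicValRat p (Algebra.norm ℚ (z i₁)) = padicValRat p (Algebra.norm ℚ (z i₂)) := by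
    rw [h2, padicValRat.mul (Algebra.norm_ne_zero_iff.2 (div_ne_zero (hz0 i₁) (hz0 i₂)))
      (Algebra.norm_ne_zero_iff.2 (hz0 i₂)), h1, zero_add]
  rw [hz] at h3
  exact h3

end Pool.Agent.Y734.I.LG
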